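import Pool.Agent.helper76.FE.Spec
import Pool.Agent.helper51.FP.ENU

/-!
# Project FE (MP_bf63dc_nt), row FEC: a maximal family of bad tuples of exponents gives the exceptional set of differences
-/

set_option autoImplicit false

namespace Pool.Agent.FE

open Finset
open Pool.Agent.FR (mean)
open Pool.Agent.DP (CORE2_stmt)
open Pool.Agent.FP (DataU ENU_mean)
open Pool.Agent.IT (Ad br)

theorem FEC_num (hCORE : CORE2_stmt) (N : ℕ) (c : ℝ) (hc : 0 < c) (h : ∀ e : ℝ, 0 < e → DataU N c e) : (N : ℝ) ≤ 32 / c ^ 4 := by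
  have hN : (0 : ℝ) < (N : ℝ) + 1 := by positivity
  obtain ⟨Φ, Ξ, i1, i2, i3, i4, A, g, B, hA, hB, hc', ho⟩ := h (1 / ((N : ℝ) + 1)) (by positivity)
  have h1 := hCORE Φ Ξ (Fin N) Finset.univ A g B c (1 / ((N : ℝ) + 1)) hc hA
    (fun τ _ => ENU_mean (B τ) (hB τ)) (by positivity)
    (by
      rw [Finset.card_univ, Fintype.card_fin, div_mul_eq_mul_div, one_mul]
      exact div_le_one_of_le₀ (by linarith) hN.le)
    (fun τ _ τ' _ hne => ho τ τ' hne) (fun τ _ => (hc' τ).trans (le_abs_self _))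
  rw [Finset.card_univ, Fintype.card_fin] at h1
  exact h1

theorem FEC (hMDH : MDH_stmt) (hCORE : CORE2_stmt) : FEC_stmt := by
  classical
  intro k hk
  obtain ⟨c₀, hc0, -, h⟩ := hMDH k hk
  have hk0 : (0 : ℝ) < k := by exact_mod_cast hk
  refine ⟨k ^ 2 * (32 / c₀ ^ 4), by positivity, fun ε hε hε1 => ?_⟩
  obtain ⟨B, hB⟩ : ∃ B : ℝ, B = 32 / (c₀ * ε) ^ 4 := ⟨_, rfl⟩
  have hB0 : 0 < B := by rw [hB]; positivity
  obtain ⟨n₀, hn₀, h1⟩ := h ε hε hε1 (⌊B⌋₊ + 1)
  refine ⟨n₀, hn₀, fun a b c hAd hab => ?_⟩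
  by_contra hcon
  push Not at hcon
  have hfam : ∀ N : ℕ, N ≤ ⌊B⌋₊ + 1 → ∃ x : Fin N → Fin k → ℕ, FamX ε n₀ a b c N x := by
    intro N
    induction N with
    | zero =>
      intro _
      exact ⟨fun τ => τ.elim0, fun τ => τ.elim0, fun τ => τ.elim0, fun τ => τ.elim0⟩
    | succ N ih =>
      intro hN
      obtain ⟨x, hx⟩ := ih (by omega)
      obtain ⟨E, hE⟩ : ∃ E : Finset ℕ, E = (univ : Finset (Fin N × Fin k × Fin k)).image (fun z => x z.1 z.2.1 - x z.1 z.2.2) := ⟨_, rfl⟩
      have hEmem : ∀ τ i j, x τ i - x τ j ∈ E := by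
        intro τ i j
        rw [hE, mem_image]
        exact ⟨(τ, i, j), mem_univ _, rfl⟩
      have hEc : (#E : ℝ) ≤ k ^ 2 * (32 / c₀ ^ 4) / ε ^ 4 := by
        have h2 : E.card ≤ N * (k * k) := by
          rw [hE]
          refine card_image_le.trans (le_of_eq ?_)
          rw [card_univ, Fintype.card_prod, Fintype.card_prod, Fintype.card_fin, Fintype.card_fin]
        have h3 : (N : ℝ) ≤ B := by
          have h4 : N ≤ ⌊B⌋₊ := by omega
          exact (Nat.cast_le.2 h4).trans (Nat.floor_le hB0.le)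
        calc (E.card : ℝ) ≤ ((N * (k * k) : ℕ) : ℝ) := by exact_mod_cast h2
          _ = k ^ 2 * N := by push_cast; ring
          _ ≤ k ^ 2 * B := mul_le_mul_of_nonneg_left h3 (by positivity)
          _ = k ^ 2 * (32 / c₀ ^ 4) / ε ^ 4 := by rw [hB, mul_pow]; field_simp
      obtain ⟨t, htinj, htE, hbad⟩ := hcon E hEc
      obtain ⟨f2, f3, f4⟩ := hx
      refine ⟨Fin.cons t x, ?_, ?_, ?_⟩
      · intro τ
        refine Fin.cases ?_ (fun z => ?_) τ
        · rw [Fin.cons_zero]
          exact htinj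
        · rw [Fin.cons_succ]
          exact f2 z
      · intro τ
        refine Fin.cases ?_ (fun z => ?_) τ
        · rw [Fin.cons_zero]
          exact hbad
        · rw [Fin.cons_succ]
          exact f3 z
      · intro τ τ' i j i' j'
        refine Fin.cases ?_ (fun z => ?_) τ
        · refine Fin.cases ?_ (fun z' => ?_) τ'
          · intro h5
            exact absurd rfl h5
          · intro _ hij _
            rw [Fin.cons_zero] at hij
            rw [Fin.cons_zero, Fin.cons_succ]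
            intro h6
            exact htE i j hij (by rw [h6]; exact hEmem z' i' j')
        · refine Fin.cases ?_ (fun z' => ?_) τ'
          · intro _ _ hij
            rw [Fin.cons_zero] at hij
            rw [Fin.cons_zero, Fin.cons_succ]
            intro h6
            exact htE i' j' hij (by rw [← h6]; exact hEmem z i j)
          · intro h5 hij hij'
            rw [Fin.cons_succ] at hij hij'
            rw [Fin.cons_succ, Fin.cons_succ]
            exact f4 z z' i j i' j' (fun h6 => h5 (by rw [h6])) hij hij'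
  obtain ⟨x, hx⟩ := hfam (⌊B⌋₊ + 1) le_rfl
  have h2 := FEC_num hCORE (⌊B⌋₊ + 1) (c₀ * ε) (by positivity) (h1 a b c hAd hab x hx)
  rw [← hB] at h2
  have h3 := Nat.lt_floor_add_one B
  push_cast at h2
  linarith

end Pool.Agent.FE
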