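import Pool.Agent.helper76.FE.Spec
import Pool.Agent.helper76.FP.MDU

/-!
# Project FE (MP_bf63dc_nt), row MDH: the data of the counting argument for the iterates of one case
-/

set_option autoImplicit false

namespace Pool.Agent.FE

open Finset
open Pool.Agent.FR (mean PRJ_add PRJ_sub PRJ_mul PRJ_sum PRJ_mono PRJ_nonneg PRJ_const PRJ_abs PRJ_le_const EXC_cop EXC_dvd)
open Pool.Agent.AT (Qk Pair)
open Pool.Agent.HF (Om TC)
open Pool.Agent.DP (Fm PrE CORE2_stmt Fm_bound MO_mono_const)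
open Pool.Agent.FP (fa DataU fa_bound Lab Fc tr PLC_stmt PIG_stmt)
open Pool.Agent.IT (Ad br)

/-- orbits -/
theorem MDH_orb (a b : ℕ) (c : ℤ) (h : ℕ → ℤ) (L i : ℕ) (hL : ∀ i < L, (a : ℤ) * h (i + 1) = b * h i + c) :
    ∀ m : ℕ, i + m ≤ L → (a : ℤ) ^ m * h (i + m) = (b : ℤ) ^ m * h i + c * br a b m := by
  intro m
  induction m with
  | zero =>
    intro _
    unfold br
    simp
  | succ m ih =>
    intro hm
    have h1 := ih (by omega)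
    have h2 := hL (i + m) (by omega)
    have h3 : ((br a b (m + 1) : ℕ) : ℤ) = (a : ℤ) ^ m + b * br a b m := by
      unfold br
      rw [Finset.sum_range_succ, Nat.add_sub_cancel, Nat.sub_self, pow_zero, mul_one]
      have e1 : ∑ j ∈ range m, a ^ j * b ^ (m - j) = b * ∑ j ∈ range m, a ^ j * b ^ (m - 1 - j) := by
        rw [Finset.mul_sum]
        refine Finset.sum_congr rfl fun j hj => ?_
        have h4 : m - j = (m - 1 - j) + 1 := by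
          have := mem_range.1 hj
          omega
        rw [h4, pow_succ]
        ring
      rw [e1]
      push_cast
      ring
    rw [h3]
    have h4 : i + (m + 1) = i + m + 1 := by ring
    rw [h4]
    calc (a : ℤ) ^ (m + 1) * h (i + m + 1) = (a : ℤ) ^ m * (a * h (i + m + 1)) := by ring
      _ = (a : ℤ) ^ m * (b * h (i + m) + c) := by rw [h2]
      _ = b * ((a : ℤ) ^ m * h (i + m)) + (a : ℤ) ^ m * c := by ring
      _ = b * ((b : ℤ) ^ m * h i + c * br a b m) + (a : ℤ) ^ m * c := by rw [h1]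
      _ = (b : ℤ) ^ (m + 1) * h i + c * ((a : ℤ) ^ m + b * br a b m) := by ring

open Classical in
/-- an enumeration of the bad pairs -/
theorem MDH_pq {k : ℕ} (hk : 1 ≤ k) (ε : ℝ) (n₀ a b : ℕ) (c : ℤ) (x : Fin k → ℕ) (hx : BadX ε n₀ a b c x) : ∃ p q : Fin k × Fin k → Fin k, (∀ e, x (q e) < x (p e)) ∧
    (∀ e, ¬ GoodT ε a b c (n₀ * (x (p e) - x (q e)))) ∧ ∀ S : Finset (Fin k), (∀ e, ¬ (p e ∈ S ∧ q e ∈ S)) → 4 * #S ≤ k := by
  obtain ⟨i, -, j, -, hij, hb⟩ := hx univ (by rw [card_univ, Fintype.card_fin]; omega)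
  refine ⟨fun e => if x e.2 < x e.1 ∧ ¬ GoodT ε a b c (n₀ * (x e.1 - x e.2)) then e.1 else i,
    fun e => if x e.2 < x e.1 ∧ ¬ GoodT ε a b c (n₀ * (x e.1 - x e.2)) then e.2 else j, ?_, ?_, ?_⟩
  · intro e
    dsimp only
    by_cases h : x e.2 < x e.1 ∧ ¬ GoodT ε a b c (n₀ * (x e.1 - x e.2))
    · rw [if_pos h, if_pos h]
      exact h.1
    · rw [if_neg h, if_neg h]
      exact hij
  · intro e
    dsimp only
    by_cases h : x e.2 < x e.1 ∧ ¬ GoodT ε a b c (n₀ * (x e.1 - x e.2))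
    · rw [if_pos h, if_pos h]
      exact h.2
    · rw [if_neg h, if_neg h]
      exact hb
  · intro S hS
    by_contra hcon
    push Not at hcon
    obtain ⟨u, hu, v, hv, huv, hbad⟩ := hx S hcon
    apply hS (u, v)
    have h : x (u, v).2 < x (u, v).1 ∧ ¬ GoodT ε a b c (n₀ * (x (u, v).1 - x (u, v).2)) := ⟨huv, hbad⟩
    dsimp only
    rw [if_pos h, if_pos h]
    exact ⟨hu, hv⟩

/-- the kernel -/
noncomputable def BV (A B D D' l : ℕ) (C : ℤ) (X : ℕ) (z : Fin X × Fin X) : ℝ :=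
  Fm (fa (A, B)) (D * D') l (C + D * ((A : ℤ) * ((z.1 : ℕ) : ℤ) - B * ((z.2 : ℕ) : ℤ))) - fa (A, B) (C + D * ((A : ℤ) * ((z.1 : ℕ) : ℤ) - B * ((z.2 : ℕ) : ℤ)))

theorem BV_abs (A B D D' l : ℕ) (v : ℤ) : |Fm (fa (A, B)) (D * D') l v - fa (A, B) v| ≤ 1 := by
  have h1 := Fm_bound (fa (A, B)) (fa_bound _) (D * D') l v
  have h2 := fa_bound (A, B) v
  exact abs_le.2 ⟨by linarith, by linarith⟩

/-- different ratios are nearly orthogonal -/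
theorem MDH_ort (hORT : Pool.Agent.FR.ORT_stmt) (m D l l' X A B A' B' : ℕ) (C C' : ℤ) (hA : 1 ≤ A) (hAm : A ≤ m) (hBm : B ≤ m) (hAm' : A' ≤ m) (hBm' : B' ≤ m)
    (hc : Nat.Coprime A B) (hc' : Nat.Coprime A' B') (hne : (A, B) ≠ (A', B')) (hl : 1 ≤ l) (hX : 1 ≤ X) :
    |mean fun z : Fin X × Fin X => BV A B D (m ^ 2).factorial l C X z * BV A' B' D (m ^ 2).factorial l' C' X z| ≤ 4 * l * (m ^ 2).factorial * m / X := by
  have hdet : ((A : ℕ) : ℤ) * (B' : ℕ) - (A' : ℕ) * (B : ℕ) ≠ 0 := by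
    intro h0
    obtain ⟨h1, h2⟩ := EXC_cop _ _ _ _ hA hc hc' h0
    exact hne (Prod.ext h1 h2)
  have hdvd := EXC_dvd _ _ _ _ m hAm hBm hAm' hBm' hdet
  have h1 := hORT A B A' B' m (m ^ 2).factorial l X
    (fun y => fa (A, B) (C + D * y))
    (fun y => Fm (fa (A', B')) (D * (m ^ 2).factorial) l' (C' + D * y) - fa (A', B') (C' + D * y))
    hAm hBm hAm' hBm' hl hX (Nat.factorial_pos _) hdet hdvd
    (fun y => by
      have h2 := fa_bound (A, B) (C + D * y)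
      exact abs_le.2 ⟨by linarith, h2.2⟩)
    (fun y => BV_abs A' B' D _ l' _)
  have e1 : (mean fun z : Fin X × Fin X => BV A B D (m ^ 2).factorial l C X z * BV A' B' D (m ^ 2).factorial l' C' X z) =
      -(mean fun z : Fin X × Fin X =>
        ((fun y => fa (A, B) (C + D * y)) ((A : ℤ) * ((z.1 : ℕ) : ℤ) - (B : ℤ) * ((z.2 : ℕ) : ℤ)) -
          mean fun k : Fin l => (fun y => fa (A, B) (C + D * y)) ((A : ℤ) * ((z.1 : ℕ) : ℤ) - (B : ℤ) * ((z.2 : ℕ) : ℤ) + ((m ^ 2).factorial : ℕ) * ((k : ℕ) : ℤ))) *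
        (fun y => Fm (fa (A', B')) (D * (m ^ 2).factorial) l' (C' + D * y) - fa (A', B') (C' + D * y))
          ((A' : ℤ) * ((z.1 : ℕ) : ℤ) - (B' : ℤ) * ((z.2 : ℕ) : ℤ))) := by
    rw [← neg_one_mul, ← PRJ_mul]
    congr 1
    funext z
    have e2 : Fm (fa (A, B)) (D * (m ^ 2).factorial) l (C + D * ((A : ℤ) * ((z.1 : ℕ) : ℤ) - B * ((z.2 : ℕ) : ℤ))) =
        mean fun k : Fin l => fa (A, B) (C + D * ((A : ℤ) * ((z.1 : ℕ) : ℤ) - (B : ℤ) * ((z.2 : ℕ) : ℤ) + ((m ^ 2).factorial : ℕ) * ((k : ℕ) : ℤ))) := by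
      unfold Fm
      congr 1
      funext k
      congr 1
      push_cast
      ring
    unfold BV
    rw [e2]
    dsimp only
    ring
  rw [e1, abs_neg]
  refine h1.trans (le_of_eq ?_)
  ring

theorem MDH_pow_ne (a b n₀ d d' : ℕ) (ha : 1 ≤ a) (hb : 1 ≤ b) (hab : a ≠ b) (hn : 1 ≤ n₀) (hd : d ≠ d') : (a ^ (n₀ * d), b ^ (n₀ * d)) ≠ (a ^ (n₀ * d'), b ^ (n₀ * d')) := by
  intro h
  have h1 := congrArg Prod.fst h
  have h2 := congrArg Prod.snd h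
  dsimp only at h1 h2
  have h3 : n₀ * d ≠ n₀ * d' := fun h4 => hd (Nat.eq_of_mul_eq_mul_left (by omega) h4)
  have h5 : 2 ≤ a ∨ 2 ≤ b := by omega
  rcases h5 with h5 | h5
  · exact h3 (Nat.pow_right_injective h5 h1)
  · exact h3 (Nat.pow_right_injective h5 h2)

theorem MDH_pow_ne' (a b m : ℕ) (hab : a ≠ b) (hm : 1 ≤ m) : a ^ m ≠ b ^ m := by
  intro h
  exact hab (Nat.pow_left_injective (by omega) h)

theorem MDH (hIDP : IDP_stmt) (hPLC : PLC_stmt) (hFCV : FCV_stmt) (hORO : ORO_stmt) (hBAG : BAG_stmt) (hPIG : PIG_stmt) (hONG : ONG_stmt) (hORT : Pool.Agent.FR.ORT_stmt) : MDH_stmt := by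
  classical
  intro k hk
  obtain ⟨t, ht⟩ : ∃ t : ℝ, t = 1 / 4000000 := ⟨_, rfl⟩
  have ht0 : 0 < t := by rw [ht]; norm_num
  have ht1 : t ≤ 1 := by rw [ht]; norm_num
  obtain ⟨J, hJ1, hJ⟩ : ∃ J : ℕ, 1 ≤ J ∧ 2 * ((Fintype.card (Fin k × Fin k) : ℝ) + 1) * k ≤ t ^ 3 * J := by
    refine ⟨⌈2 * ((Fintype.card (Fin k × Fin k) : ℝ) + 1) * k / t ^ 3⌉₊ + 1, by omega, ?_⟩
    have h1 := Nat.le_ceil (2 * ((Fintype.card (Fin k × Fin k) : ℝ) + 1) * k / t ^ 3)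
    rw [div_le_iff₀ (by positivity)] at h1
    push_cast at h1 ⊢
    have h2 : 0 < t ^ 3 := by positivity
    nlinarith
  have hJ0 : (1 : ℝ) ≤ J := by exact_mod_cast hJ1
  obtain ⟨c₁, hc₁⟩ : ∃ c₁ : ℝ, c₁ = t ^ 3 / (J * Fintype.card (Fin k × Fin k) * (Fintype.card (Fin J → Option (Fin k × Fin k)) : ℝ) ^ 2) := ⟨_, rfl⟩
  have hkk : (1 : ℝ) ≤ Fintype.card (Fin k × Fin k) := by
    have : 1 ≤ Fintype.card (Fin k × Fin k) := by
      rw [Fintype.card_prod, Fintype.card_fin]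
      exact Nat.mul_pos hk hk
    exact_mod_cast this
  have hPP : (1 : ℝ) ≤ Fintype.card (Fin J → Option (Fin k × Fin k)) := by
    have : 1 ≤ Fintype.card (Fin J → Option (Fin k × Fin k)) := Fintype.card_pos
    exact_mod_cast this
  have hc₁0 : 0 < c₁ := by
    rw [hc₁]
    positivity
  have hc₁1 : c₁ ≤ 1 := by
    rw [hc₁, div_le_one (by positivity)]
    have h1 : t ^ 3 ≤ 1 := pow_le_one₀ ht0.le ht1
    have h2 : (1 : ℝ) ≤ (Fintype.card (Fin J → Option (Fin k × Fin k)) : ℝ) ^ 2 := one_le_pow₀ hPP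
    have h3 : (1 : ℝ) ≤ J * Fintype.card (Fin k × Fin k) := by nlinarith
    nlinarith
  refine ⟨c₁ / 4, by positivity, by linarith, fun ε hε hε1 N => ?_⟩
  obtain ⟨η₁, hη₁⟩ : ∃ η₁ : ℝ, η₁ = c₁ * ε / 48 := ⟨_, rfl⟩
  have hη₁0 : 0 < η₁ := by rw [hη₁]; positivity
  obtain ⟨δ, hδ⟩ : ∃ δ : ℝ, δ = min t (c₁ * ε / 12) := ⟨_, rfl⟩
  have hδ0 : 0 < δ := by
    rw [hδ]
    exact lt_min ht0 (by positivity)
  have hδt : δ ≤ t := by
    rw [hδ]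
    exact min_le_left _ _
  have hδc : δ ≤ c₁ * ε / 12 := by
    rw [hδ]
    exact min_le_right _ _
  -- the index set and the moduli
  obtain ⟨G, hG1, hG⟩ := hIDP (Fin N × Lab J (Fin k × Fin k) k) η₁ hη₁0
  obtain ⟨k', hk'⟩ := hFCV G δ hG1 hδ0
  obtain ⟨n₀, hn₀, hORB⟩ := hORO k'
  refine ⟨n₀, hn₀, fun a b c hAd hab x hFam e he => ?_⟩
  obtain ⟨ha, hb, hc0, hcop, -⟩ := id hAd
  obtain ⟨hinj, hbad, hdis⟩ := hFam
  obtain ⟨M, y, T, hyM, hxM, hV⟩ := hG (fun z => x z.1 z.2.2)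
  obtain ⟨a', ha'⟩ : ∃ a' : ℕ, a' = a ^ n₀ := ⟨_, rfl⟩
  obtain ⟨b', hb'⟩ : ∃ b' : ℕ, b' = b ^ n₀ := ⟨_, rfl⟩
  have ha'1 : 1 ≤ a' := by rw [ha']; exact Nat.pow_pos ha
  have hb'1 : 1 ≤ b' := by rw [hb']; exact Nat.pow_pos hb
  have hpa : ∀ d, a' ^ d = a ^ (n₀ * d) := fun d => by rw [ha', pow_mul]
  have hpb : ∀ d, b' ^ d = b ^ (n₀ * d) := fun d => by rw [hb', pow_mul]
  obtain ⟨P, hP1, hVP⟩ := hV a' b' ha'1 hb'1
  obtain ⟨h, hh1, hh2⟩ := hORB a b c hAd M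
  obtain ⟨w, hw⟩ : ∃ w : Fin G → ℕ, w = fun γ => a' ^ (M - y γ) * b' ^ y γ := ⟨_, rfl⟩
  have hw1 : ∀ γ, 1 ≤ w γ := fun γ => by
    rw [hw]
    exact Nat.mul_pos (Nat.pow_pos ha'1) (Nat.pow_pos hb'1)
  obtain ⟨m, hm1, hm⟩ : ∃ m : ℕ, 1 ≤ m ∧ ∀ d, d ≤ M → a' ^ d ≤ m ∧ b' ^ d ≤ m := by
    refine ⟨a' ^ M + b' ^ M, ?_, fun d hd => ⟨?_, ?_⟩⟩
    · have : 1 ≤ a' ^ M := Nat.pow_pos ha'1
      omega
    · have : a' ^ d ≤ a' ^ M := Nat.pow_le_pow_right ha'1 hd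
      omega
    · have : b' ^ d ≤ b' ^ M := Nat.pow_le_pow_right hb'1 hd
      omega
  have hm0 : (0 : ℝ) < m := by exact_mod_cast hm1
  have hpq : ∀ τ, ∃ p q : Fin k × Fin k → Fin k, (∀ e, x τ (q e) < x τ (p e)) ∧
      (∀ e, ¬ GoodT ε a b c (n₀ * (x τ (p e) - x τ (q e)))) ∧ ∀ S : Finset (Fin k), (∀ e, ¬ (p e ∈ S ∧ q e ∈ S)) → 4 * #S ≤ k :=
    fun τ => MDH_pq hk ε n₀ a b c (x τ) (hbad τ)
  choose p q hpq1 hpq2 hpq3 using hpq
  obtain ⟨e₁, he₁⟩ : ∃ e₁ : ℝ, e₁ = c₁ * ε / (36 * m) := ⟨_, rfl⟩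
  have he₁0 : 0 < e₁ := by rw [he₁]; positivity
  have he₁m : 3 * m * e₁ = c₁ * ε / 12 := by
    rw [he₁]
    field_simp
    ring
  -- the pairs
  obtain ⟨AA, hAA⟩ : ∃ AA : Fin N → Fin k × Fin k → ℕ, AA = fun τ e => a' ^ (x τ (p τ e) - x τ (q τ e)) := ⟨_, rfl⟩
  obtain ⟨BB, hBB⟩ : ∃ BB : Fin N → Fin k × Fin k → ℕ, BB = fun τ e => b' ^ (x τ (p τ e) - x τ (q τ e)) := ⟨_, rfl⟩
  obtain ⟨CC, hCC⟩ : ∃ CC : Fin N → Fin k × Fin k → ℤ, CC = fun τ e => c * br a b (n₀ * (x τ (p τ e) - x τ (q τ e))) := ⟨_, rfl⟩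
  obtain ⟨LL, hLL⟩ : ∃ LL : Fin N → Fin k × Fin k → ℕ, LL = fun τ e => b' ^ x τ (p τ e) * a' ^ (M - x τ (q τ e)) := ⟨_, rfl⟩
  have hxMM : ∀ τ i, x τ i ≤ M := fun τ i => hxM (τ, ((fun _ => none), i))
  have hAB1 : ∀ τ e, 1 ≤ AA τ e ∧ 1 ≤ BB τ e := fun τ e => by
    rw [hAA, hBB]
    exact ⟨Nat.pow_pos ha'1, Nat.pow_pos hb'1⟩
  have hABm : ∀ τ e, AA τ e ≤ m ∧ BB τ e ≤ m := fun τ e => by
    rw [hAA, hBB]
    exact hm _ (by have := hxMM τ (p τ e); omega)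
  have hABc : ∀ τ e, Nat.Coprime (AA τ e) (BB τ e) := fun τ e => by
    rw [hAA, hBB]
    dsimp only
    rw [hpa, hpb]
    exact Nat.Coprime.pow _ _ hcop
  have hABne : ∀ τ e, AA τ e ≠ BB τ e := fun τ e => by
    rw [hAA, hBB]
    dsimp only
    rw [hpa, hpb]
    refine MDH_pow_ne' a b _ hab ?_
    have := hpq1 τ e
    exact Nat.mul_pos hn₀ (by omega)
  -- the moduli
  obtain ⟨Q₀, hQ₀⟩ : ∃ Q₀ : ℕ, Q₀ = k'.factorial * a * b := ⟨_, rfl⟩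
  have hQ₀1 : 1 ≤ Q₀ := by
    rw [hQ₀]
    exact Nat.mul_pos (Nat.mul_pos (Nat.factorial_pos _) ha) hb
  have hQ₀k : ∀ p : ℕ, p.Prime → p ≤ k' → p ∣ Q₀ := by
    intro p hp hpk
    rw [hQ₀, mul_assoc]
    exact (Nat.dvd_factorial hp.pos hpk).mul_right _
  have hQ₀w : ∀ γ, ∀ p : ℕ, p.Prime → p ∣ w γ → p ∣ Q₀ := by
    intro γ p hp hpw
    rw [hw] at hpw
    rcases (Nat.Prime.dvd_mul hp).1 hpw with h1 | h1
    · have h2 : p ∣ a' := hp.dvd_of_dvd_pow h1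
      rw [ha'] at h2
      have h3 : p ∣ a := hp.dvd_of_dvd_pow h2
      rw [hQ₀]
      exact (h3.mul_left _).mul_right _
    · have h2 : p ∣ b' := hp.dvd_of_dvd_pow h1
      rw [hb'] at h2
      have h3 : p ∣ b := hp.dvd_of_dvd_pow h2
      rw [hQ₀]
      exact h3.mul_left _
  obtain ⟨X₀, hX₀f⟩ := hk' w hw1
  -- the places
  have hplc : ∀ τ : Fin N, _ := fun τ => hPLC J (Fin k × Fin k) (fun i => fa (AA τ i, BB τ i)) (CC τ) (LL τ) ε e₁ (Q₀ * P) hε hε1 he₁0 (Nat.mul_pos hQ₀1 hP1)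
    (fun i => by
      rw [hLL]
      exact Nat.mul_pos (Nat.pow_pos hb'1) (Nat.pow_pos ha'1)) (fun i x => fa_bound _ _) (fun i => by
      have h1 := hpq2 τ i
      unfold GoodT at h1
      rw [← hpa, ← hpb] at h1
      have h2 := hBAG ε _ _ _ h1
      rw [hAA, hBB, hCC]
      exact h2)
  choose Q hQ1 hQ2 hQ3 using hplc
  obtain ⟨D, hD⟩ : ∃ D : ℕ, D = Q₀ * P * ∏ τ, Q τ := ⟨_, rfl⟩
  have hD1 : 1 ≤ D := by
    rw [hD]
    exact Nat.mul_pos (Nat.mul_pos hQ₀1 hP1) (Finset.prod_pos fun τ _ => hQ1 τ)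
  have hQD : ∀ τ, Q τ ∣ D := by
    intro τ
    rw [hD]
    exact (Finset.dvd_prod_of_mem Q (mem_univ τ)).mul_left _
  have hQ₀D : Q₀ ∣ D := by
    rw [hD, mul_assoc]
    exact dvd_mul_right _ _
  have hl : ∀ τ : Fin N, _ := fun τ => hQ3 τ D hD1 (hQD τ) (m ^ 2).factorial (Nat.factorial_pos _)
  choose l hl1 hl2 using hl
  obtain ⟨X, hX₀, hX1, hXl⟩ : ∃ X : ℕ, X₀ ≤ X ∧ 1 ≤ X ∧ ∀ τ, 4 * (l τ : ℝ) * ((m ^ 2).factorial : ℕ) * m ≤ e * X := by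
    refine ⟨X₀ + 1 + ⌈4 * ((∑ τ, l τ : ℕ) : ℝ) * ((m ^ 2).factorial : ℕ) * m / e⌉₊, by omega, by omega, fun τ => ?_⟩
    have h1 := Nat.le_ceil (4 * ((∑ τ, l τ : ℕ) : ℝ) * ((m ^ 2).factorial : ℕ) * m / e)
    rw [div_le_iff₀ he] at h1
    have h2 : l τ ≤ ∑ τ, l τ := single_le_sum (f := l) (fun _ _ => Nat.zero_le _) (mem_univ τ)
    have h3 : (l τ : ℝ) ≤ ((∑ τ, l τ : ℕ) : ℝ) := by exact_mod_cast h2
    have h4 : 4 * (l τ : ℝ) * ((m ^ 2).factorial : ℕ) * m ≤ 4 * ((∑ τ, l τ : ℕ) : ℝ) * ((m ^ 2).factorial : ℕ) * m := by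
      have h5 : (0 : ℝ) ≤ ((m ^ 2).factorial : ℕ) * m := by positivity
      nlinarith
    refine h4.trans (h1.trans ?_)
    push_cast
    have h6 : (0 : ℝ) ≤ (X₀ : ℝ) := Nat.cast_nonneg _
    nlinarith
  have hX0 : (0 : ℝ) < X := by exact_mod_cast hX1
  have hDel : ∀ τ : Fin N, _ := fun τ => hl2 τ (m * X)
  choose Del hDel1 hDel2 using hDel
  have htr : ∀ τ (π : Fin J → Option (Fin k × Fin k)), ((Q₀ * P : ℕ) : ℤ) ∣ tr (Del τ) π := by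
    intro τ π
    unfold tr
    refine Finset.dvd_sum fun j _ => ?_
    rcases π j with _ | i
    · exact dvd_zero _
    · exact hDel1 τ j i
  obtain ⟨o, ho1, ho2⟩ := hVP (fun z => (b' : ℤ) ^ x z.1 z.2.2 * (a' : ℤ) ^ M * tr (Del z.1) z.2.1) (Q₀ : ℤ) (fun z => by
    have h1 := htr z.1 z.2.1
    push_cast at h1
    exact h1.mul_left _)
  obtain ⟨H, hH⟩ : ∃ H : Fin G → ℤ, H = fun γ => h (n₀ * y γ) + o γ := ⟨_, rfl⟩
  obtain ⟨f, hf1, hf2, hf3⟩ := hX₀f Q₀ hQ₀1 hQ₀k hQ₀w D X H hD1 hQ₀D hX₀ hX1 (fun γ => by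
    obtain ⟨z, hz⟩ := ho1 γ
    have h1 := hh2 (y γ) (hyM γ)
    rw [← hQ₀] at h1
    obtain ⟨u, v, huv⟩ := h1
    refine ⟨u, v - u * z, ?_⟩
    rw [hH]
    dsimp only
    rw [hz]
    linear_combination huv)
  have : Nonempty (Fin G) := ⟨⟨0, hG1⟩⟩
  have : Nonempty (Fin X) := ⟨⟨0, hX1⟩⟩
  -- the facing pairs
  have hpig : ∀ τ : Fin N, ∃ (j : Fin J) (i : Fin k × Fin k) (π π' : Fin J → Option (Fin k × Fin k)), Fc j i π π' ∧
      c₁ ≤ mean fun φ => mean (f (T (τ, (π, p τ i)) φ)) * mean (f (T (τ, (π', q τ i)) φ)) := by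
    intro τ
    rw [hc₁]
    exact hPIG k J (Fin k × Fin k) (p τ) (q τ) t G (fun φ => mean (f φ)) (fun x => T (τ, x)) hk hJ1 hG1 ht0 ht1
      (fun φ => ⟨PRJ_nonneg fun x => (hf1 φ x).1, PRJ_le_const fun x => (hf1 φ x).2⟩) (hpq3 τ) hJ (by
        refine le_trans ?_ hf2
        rw [ht] at hδt ⊢
        linarith)
  choose j i π π' hFc hcor using hpig
  refine ⟨Fin G, Fin X, inferInstance, inferInstance, inferInstance, inferInstance, f,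
    fun τ => (T (τ, (π' τ, q τ (i τ)))).symm.trans (T (τ, (π τ, p τ (i τ)))),
    fun τ => BV (AA τ (i τ)) (BB τ (i τ)) D (m ^ 2).factorial (l τ) (CC τ (i τ) + LL τ (i τ) * (tr (Del τ) (π τ) - tr (Del τ) (π' τ))) X, hf1,
    fun τ z => BV_abs _ _ _ _ _ _, fun τ => ?_, fun τ τ' hne => ?_⟩
  · obtain ⟨hFc1, hFc2, hFc3⟩ := hFc τ
    have hexc : (#{φ | ¬ (AA τ (i τ) * w (T (τ, (π τ, p τ (i τ))) φ) = BB τ (i τ) * w (T (τ, (π' τ, q τ (i τ))) φ) ∧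
        (AA τ (i τ) : ℤ) * H (T (τ, (π τ, p τ (i τ))) φ) - BB τ (i τ) * H (T (τ, (π' τ, q τ (i τ))) φ) = CC τ (i τ) + LL τ (i τ) * (tr (Del τ) (π τ) - tr (Del τ) (π' τ)))} : ℝ) ≤ 2 * η₁ * G := by
      have h1 := ho2 (τ, (π τ, p τ (i τ)))
      have h2 := ho2 (τ, (π' τ, q τ (i τ)))
      have h3 : #{φ | ¬ (AA τ (i τ) * w (T (τ, (π τ, p τ (i τ))) φ) = BB τ (i τ) * w (T (τ, (π' τ, q τ (i τ))) φ) ∧
          (AA τ (i τ) : ℤ) * H (T (τ, (π τ, p τ (i τ))) φ) - BB τ (i τ) * H (T (τ, (π' τ, q τ (i τ))) φ) = CC τ (i τ) + LL τ (i τ) * (tr (Del τ) (π τ) - tr (Del τ) (π' τ)))} ≤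
          #{γ | ¬ (y (T (τ, (π τ, p τ (i τ))) γ) = y γ + x τ (p τ (i τ)) ∧ (a' : ℤ) ^ x τ (p τ (i τ)) * o (T (τ, (π τ, p τ (i τ))) γ) = (b' : ℤ) ^ x τ (p τ (i τ)) * o γ + (b' : ℤ) ^ x τ (p τ (i τ)) * (a' : ℤ) ^ M * tr (Del τ) (π τ))} +
          #{γ | ¬ (y (T (τ, (π' τ, q τ (i τ))) γ) = y γ + x τ (q τ (i τ)) ∧ (a' : ℤ) ^ x τ (q τ (i τ)) * o (T (τ, (π' τ, q τ (i τ))) γ) = (b' : ℤ) ^ x τ (q τ (i τ)) * o γ + (b' : ℤ) ^ x τ (q τ (i τ)) * (a' : ℤ) ^ M * tr (Del τ) (π' τ))} := by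
        refine le_trans (card_le_card ?_) (card_union_le _ _)
        intro φ hφ
        have hφ2 := (mem_filter.1 hφ).2
        by_contra hcon
        rw [mem_union, not_or] at hcon
        obtain ⟨hc1, hc2⟩ := hcon
        have hc1' := not_not.1 fun hn => hc1 (mem_filter.2 ⟨mem_univ _, hn⟩)
        have hc2' := not_not.1 fun hn => hc2 (mem_filter.2 ⟨mem_univ _, hn⟩)
        obtain ⟨hy1, hr1⟩ := hc1'
        obtain ⟨hy2, hr2⟩ := hc2'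
        apply hφ2
        have hlt := hpq1 τ (i τ)
        obtain ⟨xi, hxi⟩ : ∃ xi : ℕ, xi = x τ (p τ (i τ)) := ⟨_, rfl⟩
        obtain ⟨xj, hxj⟩ : ∃ xj : ℕ, xj = x τ (q τ (i τ)) := ⟨_, rfl⟩
        have hxjM : xj ≤ M := by rw [hxj]; exact hxMM _ _
        have hxiM : xi ≤ M := by rw [hxi]; exact hxMM _ _
        have hAe : AA τ (i τ) = a' ^ (xi - xj) := by rw [hAA, hxi, hxj]
        have hBe : BB τ (i τ) = b' ^ (xi - xj) := by rw [hBB, hxi, hxj]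
        have hCe : CC τ (i τ) = c * br a b (n₀ * (xi - xj)) := by rw [hCC, hxi, hxj]
        have hLe : LL τ (i τ) = b' ^ xi * a' ^ (M - xj) := by rw [hLL, hxi, hxj]
        rw [← hxi, ← hxj] at hlt
        rw [← hxi] at hy1 hr1
        rw [← hxj] at hy2 hr2
        obtain ⟨u, hu⟩ : ∃ u : Fin G, u = T (τ, (π τ, p τ (i τ))) φ := ⟨_, rfl⟩
        obtain ⟨v, hv⟩ : ∃ v : Fin G, v = T (τ, (π' τ, q τ (i τ))) φ := ⟨_, rfl⟩
        rw [← hu] at hy1 hr1 ⊢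
        rw [← hv] at hy2 hr2 ⊢
        have hyu := hyM u
        have hyv := hyM v
        have hyuv : y u = y v + (xi - xj) := by omega
        rw [hAe, hBe, hCe, hLe]
        constructor
        · rw [hw]
          dsimp only
          have h4 : M - y v = (xi - xj) + (M - y u) := by omega
          rw [h4, hyuv, pow_add, pow_add]
          ring
        · rw [hH]
          dsimp only
          have horb := MDH_orb a b c h (n₀ * M) (n₀ * y v) hh1 (n₀ * (xi - xj)) (by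
            rw [← mul_add, ← hyuv]
            exact Nat.mul_le_mul_left _ hyu)
          rw [← mul_add, ← hyuv] at horb
          have hpa' : ((a' : ℕ) : ℤ) ^ (xi - xj) = (a : ℤ) ^ (n₀ * (xi - xj)) := by exact_mod_cast hpa (xi - xj)
          have hpb' : ((b' : ℕ) : ℤ) ^ (xi - xj) = (b : ℤ) ^ (n₀ * (xi - xj)) := by exact_mod_cast hpb (xi - xj)
          have ho : ((a' : ℕ) : ℤ) ^ (xi - xj) * o u - ((b' : ℕ) : ℤ) ^ (xi - xj) * o v = ((b' ^ xi * a' ^ (M - xj) : ℕ) : ℤ) * (tr (Del τ) (π τ) - tr (Del τ) (π' τ)) := by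
            have ha0 : ((a' : ℕ) : ℤ) ^ xj ≠ 0 := pow_ne_zero _ (by exact_mod_cast (by omega : a' ≠ 0))
            apply mul_left_cancel₀ ha0
            have e1 : ((a' : ℕ) : ℤ) ^ xi = (a' : ℤ) ^ xj * (a' : ℤ) ^ (xi - xj) := by rw [← pow_add]; congr 1; omega
            have e2 : ((b' : ℕ) : ℤ) ^ xi = (b' : ℤ) ^ (xi - xj) * (b' : ℤ) ^ xj := by rw [← pow_add]; congr 1; omega
            have e3 : ((a' : ℕ) : ℤ) ^ M = (a' : ℤ) ^ xj * (a' : ℤ) ^ (M - xj) := by rw [← pow_add]; congr 1; omega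
            push_cast
            rw [e1, e2, e3] at hr1
            rw [e3] at hr2
            rw [e2]
            linear_combination hr1 - (b' : ℤ) ^ (xi - xj) * hr2
          push_cast at ho ⊢
          rw [hpa', hpb'] at ho ⊢
          linear_combination horb + ho
      have h4 : (#{φ | ¬ (AA τ (i τ) * w (T (τ, (π τ, p τ (i τ))) φ) = BB τ (i τ) * w (T (τ, (π' τ, q τ (i τ))) φ) ∧
          (AA τ (i τ) : ℤ) * H (T (τ, (π τ, p τ (i τ))) φ) - BB τ (i τ) * H (T (τ, (π' τ, q τ (i τ))) φ) = CC τ (i τ) + LL τ (i τ) * (tr (Del τ) (π τ) - tr (Del τ) (π' τ)))} : ℝ) ≤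
          (#{γ | ¬ (y (T (τ, (π τ, p τ (i τ))) γ) = y γ + x τ (p τ (i τ)) ∧ (a' : ℤ) ^ x τ (p τ (i τ)) * o (T (τ, (π τ, p τ (i τ))) γ) = (b' : ℤ) ^ x τ (p τ (i τ)) * o γ + (b' : ℤ) ^ x τ (p τ (i τ)) * (a' : ℤ) ^ M * tr (Del τ) (π τ))} : ℝ) +
          (#{γ | ¬ (y (T (τ, (π' τ, q τ (i τ))) γ) = y γ + x τ (q τ (i τ)) ∧ (a' : ℤ) ^ x τ (q τ (i τ)) * o (T (τ, (π' τ, q τ (i τ))) γ) = (b' : ℤ) ^ x τ (q τ (i τ)) * o γ + (b' : ℤ) ^ x τ (q τ (i τ)) * (a' : ℤ) ^ M * tr (Del τ) (π' τ))} : ℝ) := by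
        exact_mod_cast h3
      refine h4.trans ?_
      have h5 : 2 * η₁ * (G : ℝ) = η₁ * G + η₁ * G := by ring
      rw [h5]
      exact add_le_add h1 h2
    have h1 := hONG G X m D (m ^ 2).factorial (l τ) (AA τ (i τ)) (BB τ (i τ)) (CC τ (i τ) + LL τ (i τ) * (tr (Del τ) (π τ) - tr (Del τ) (π' τ))) w H
      (T (τ, (π τ, p τ (i τ)))) (T (τ, (π' τ, q τ (i τ)))) f ε (2 * η₁) δ e₁
      hG1 hX1 hD1 (hl1 τ) hε hε1 (by linarith) hδ0.le he₁0.le (hAB1 τ _).1 (hAB1 τ _).2 (hABm τ _).1 (hABm τ _).2 (hABc τ _) (hABne τ _) hw1 hexc hf1 hf3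
      (hDel2 τ (j τ) (i τ) (π τ) (π' τ) hFc1 hFc2 hFc3)
    have h2 : (mean fun φ => mean fun z : Fin X × Fin X => f (((T (τ, (π' τ, q τ (i τ)))).symm.trans (T (τ, (π τ, p τ (i τ))))) φ) z.1 * f φ z.2 *
        BV (AA τ (i τ)) (BB τ (i τ)) D (m ^ 2).factorial (l τ) (CC τ (i τ) + LL τ (i τ) * (tr (Del τ) (π τ) - tr (Del τ) (π' τ))) X z) =
        mean fun φ => mean fun z : Fin X × Fin X => f (T (τ, (π τ, p τ (i τ))) φ) z.1 * f (T (τ, (π' τ, q τ (i τ))) φ) z.2 *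
        BV (AA τ (i τ)) (BB τ (i τ)) D (m ^ 2).factorial (l τ) (CC τ (i τ) + LL τ (i τ) * (tr (Del τ) (π τ) - tr (Del τ) (π' τ))) X z := by
      unfold mean
      congr 1
      rw [← Equiv.sum_comp (T (τ, (π' τ, q τ (i τ))))]
      refine Finset.sum_congr rfl fun φ _ => ?_
      simp only [Equiv.trans_apply, Equiv.symm_apply_apply]
    rw [h2]
    have h3 := hcor τ
    have h4 : ε / 2 * c₁ ≤ ε / 2 * mean fun φ => mean (f (T (τ, (π τ, p τ (i τ))) φ)) * mean (f (T (τ, (π' τ, q τ (i τ))) φ)) :=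
      mul_le_mul_of_nonneg_left h3 (by linarith)
    refine le_trans ?_ h1
    rw [he₁m]
    have h5 : 2 * (2 * η₁) = c₁ * ε / 12 := by rw [hη₁]; ring
    rw [h5]
    linarith
  · have h1 := MDH_ort hORT m D (l τ) (l τ') X (AA τ (i τ)) (BB τ (i τ)) (AA τ' (i τ')) (BB τ' (i τ')) (CC τ (i τ) + LL τ (i τ) * (tr (Del τ) (π τ) - tr (Del τ) (π' τ)))
      (CC τ' (i τ') + LL τ' (i τ') * (tr (Del τ') (π τ') - tr (Del τ') (π' τ')))
      (hAB1 _ _).1 (hABm _ _).1 (hABm _ _).2 (hABm _ _).1 (hABm _ _).2 (hABc _ _) (hABc _ _) (by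
        rw [hAA, hBB]
        dsimp only
        rw [hpa, hpb, hpa, hpb]
        exact MDH_pow_ne a b n₀ _ _ ha hb hab hn₀ (hdis τ τ' _ _ _ _ hne (hpq1 _ _) (hpq1 _ _))) (hl1 τ) hX1
    refine h1.trans ?_
    rw [div_le_iff₀ hX0]
    exact hXl τ

end Pool.Agent.FE
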