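import Pool.Agent.helper76.FE.IDP
import Pool.Agent.helper76.FE.MDH
import Pool.Agent.helper76.FE.FEC
import Pool.Agent.helper76.FP.All
import Pool.Agent.helper19.FE.FCV
import Pool.Agent.helper42.FE.ORO
import Pool.Agent.helper65.FE.BAG
import Pool.Agent.helper94.FE.ONG

/-!
# Project FE (MP_bf63dc_nt): the iterates of every case of Q1 with `a ≠ b`
-/

set_option autoImplicit false

namespace Pool.Agent.FE

open Pool.Agent.FP (PLC PIG STL COR CNX CLV)

/-- for every `k` and `ε` there is an absolute `n₀` such that for EVERY case `T = (a, b, c)` with `a ≠ b` there is a set of at most `C/ε^4` differences such that of any `k` different exponents with all differences outside it more than `k/4` have pairwise good iterates `T^m`, `m = n₀ (x_i - x_j)` -/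
theorem fec : FEC_stmt :=
  FEC (MDH IDP PLC (FCV Pool.Agent.AT.Q_all CLV Pool.Agent.DP.Z_FCP) ORO BAG (PIG STL) (ONG COR CNX) Pool.Agent.FR.ORT) Pool.Agent.DP.CORE2

end Pool.Agent.FE
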