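import Pool.Agent.helper19.FE.Spec

/-!
# Project FE, general form (MP_bf63dc_nt): the iterates of ONE case, arbitrary exponents, any number `k` of them

GOAL (THEOREM FEC, unconditional). For every `k ≥ 1` there is `C` such that for every `0 < ε ≤ 1` there is an ABSOLUTE `n₀` such that for EVERY case `T = (a, b, c)` of Q1 with `a ≠ b` there is a set `E` of at most `C/ε^4` positive integers with the property: of ANY `k` different natural numbers `x_i`
whose differences are not in `E` more than `k/4` have pairwise `GoodT ε a b c (n₀ (x_i - x_j))`: the iterate `T^m`, `m = n₀ (x_i - x_j)`, is true for at least the proportion `1 - ε` of all `c'` in EVERY long interval of EVERY class near its constant.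

PROOF. As in Pool/Agent/helper19/FE/Spec.lean (rows FCV, ORO, BAG, ONG of that file are used unchanged), with arbitrary exponents `x_(τ, i)` in the place of `4^τ i`. The index set (IDP) has one cyclic coordinate `e_z` for every label `z`, `y(e) = ∑_z e_z x_z`: its size depends on the number of the labels only,
so `k'` (the primes at which the forms must be admissible) and `n₀` do not depend on the exponents. A maximal family of bad `k`-tuples without common differences gives `E`.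
-/

set_option autoImplicit false

namespace Pool.Agent.FE

open Finset
open Pool.Agent.FR (mean)
open Pool.Agent.DP (Fm PrE CORE2_stmt)
open Pool.Agent.FP (fa DataU)
open Pool.Agent.IT (Ad br)

/-- the iterate `T^m` is true for at least the proportion `1 - ε` of every long interval of every class near its constant -/
def GoodT (ε : ℝ) (a b : ℕ) (c : ℤ) (m : ℕ) : Prop := Pool.Agent.SK.Dens (1 - ε) (a ^ m) (b ^ m) (c * br a b m)

open Classical in
/-- **IDP** (medium; pure; helper76). As `IDO`, but `G` is chosen before the exponents `x`. -/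
def IDP_stmt : Prop := ∀ (ι : Type) [Fintype ι] (η : ℝ), 0 < η → ∃ G : ℕ, 1 ≤ G ∧ ∀ x : ι → ℕ,
  ∃ (M : ℕ) (y : Fin G → ℕ) (g : ι → Equiv.Perm (Fin G)), (∀ γ, y γ ≤ M) ∧ (∀ i, x i ≤ M) ∧ ∀ a b : ℕ, 1 ≤ a → 1 ≤ b → ∃ P : ℕ, 1 ≤ P ∧
    ∀ (V : ι → ℤ) (Q : ℤ), (∀ i, Q * P ∣ V i) → ∃ o : Fin G → ℤ, (∀ γ, Q ∣ o γ) ∧ ∀ i,
      (#{γ | ¬ (y (g i γ) = y γ + x i ∧ (a : ℤ) ^ x i * o (g i γ) = (b : ℤ) ^ x i * o γ + V i)} : ℝ) ≤ η * G

/-- the exponents `x` form a bad tuple: every set of more than `k/4` of them contains two whose difference gives a bad iterate -/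
def BadX {k : ℕ} (ε : ℝ) (n₀ a b : ℕ) (c : ℤ) (x : Fin k → ℕ) : Prop :=
  ∀ S : Finset (Fin k), k < 4 * #S → ∃ i ∈ S, ∃ j ∈ S, x j < x i ∧ ¬ GoodT ε a b c (n₀ * (x i - x j))

/-- a family of bad tuples of exponents without common differences -/
def FamX {k : ℕ} (ε : ℝ) (n₀ a b : ℕ) (c : ℤ) (N : ℕ) (x : Fin N → Fin k → ℕ) : Prop := (∀ τ, Function.Injective (x τ)) ∧ (∀ τ, BadX ε n₀ a b c (x τ)) ∧
  ∀ τ τ' i j i' j', τ ≠ τ' → x τ j < x τ i → x τ' j' < x τ' i' → x τ i - x τ j ≠ x τ' i' - x τ' j'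

/-- **MDH** (long; helper76; model Pool/Agent/helper76/FP/MDU.lean). -/
def MDH_stmt : Prop := ∀ k : ℕ, 1 ≤ k → ∃ c₀ : ℝ, 0 < c₀ ∧ c₀ ≤ 1 ∧ ∀ ε : ℝ, 0 < ε → ε ≤ 1 → ∀ N : ℕ, ∃ n₀ : ℕ, 1 ≤ n₀ ∧ ∀ (a b : ℕ) (c : ℤ), Ad a b c → a ≠ b →
  ∀ x : Fin N → Fin k → ℕ, FamX ε n₀ a b c N x → ∀ e : ℝ, 0 < e → DataU N (c₀ * ε) e

/-- **FEC** (short-medium; helper76; from MDH and CORE2: for `N` = the first integer greater than `32/(c₀ ε)^4` there is no family with `N` members; a maximal family gives `E`). -/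
def FEC_stmt : Prop := ∀ k : ℕ, 1 ≤ k → ∃ C : ℝ, 0 < C ∧ ∀ ε : ℝ, 0 < ε → ε ≤ 1 → ∃ n₀ : ℕ, 1 ≤ n₀ ∧ ∀ (a b : ℕ) (c : ℤ), Ad a b c → a ≠ b →
  ∃ E : Finset ℕ, (#E : ℝ) ≤ C / ε ^ 4 ∧ ∀ x : Fin k → ℕ, Function.Injective x → (∀ i j, x j < x i → x i - x j ∉ E) →
    ∃ S : Finset (Fin k), k < 4 * #S ∧ ∀ i ∈ S, ∀ j ∈ S, x j < x i → GoodT ε a b c (n₀ * (x i - x j))

end Pool.Agent.FE
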